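import Pool.Agent.Lib.MP_b5021c_nt.IfaceK1

/-!
# MP_b5021c_nt, row PAR: Parseval for `c/(1 - θ z) + h`
-/

namespace Pool.Agent.MP_b5021c_nt.Par

open MeasureTheory AddCircle Filter Topology

noncomputable section

local instance fact_two_pi : Fact (0 < 2 * Real.pi) := ⟨Real.two_pi_pos⟩

/-- Parseval for an absolutely summable bilateral series. -/
theorem bilat (b : ℤ → ℂ) (hb : Summable (fun n => ‖b n‖)) :
    (2 * Real.pi)⁻¹ * ∫ x in (0 : ℝ)..(2 * Real.pi),
      ‖∑' n : ℤ, b n * Complex.exp (x * Complex.I) ^ n‖ ^ 2 = ∑' n, ‖b n‖ ^ 2 := by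
  classical
  have hs : Summable (fun n : ℤ => b n • (fourier n : C(AddCircle (2 * Real.pi), ℂ))) := by
    apply Summable.of_norm
    simpa [norm_smul, fourier_norm] using hb
  obtain ⟨F, hF⟩ := hs
  -- values of `F`
  have hFv : ∀ x : ℝ, F (x : AddCircle (2 * Real.pi)) =
      ∑' n : ℤ, b n * Complex.exp (x * Complex.I) ^ n := by
    intro x
    have h1 := (ContinuousMap.evalCLM ℂ (x : AddCircle (2 * Real.pi))).hasSum hF
    have h2 : (fun n : ℤ => b n * Complex.exp (x * Complex.I) ^ n) =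
        fun n : ℤ => (ContinuousMap.evalCLM ℂ (x : AddCircle (2 * Real.pi)))
          (b n • (fourier n : C(AddCircle (2 * Real.pi), ℂ))) := by
      funext n
      have hpi : ((2 * Real.pi : ℝ) : ℂ) ≠ 0 := by
        exact_mod_cast Real.two_pi_pos.ne'
      have h3 : fourier n (x : AddCircle (2 * Real.pi)) = Complex.exp (x * Complex.I) ^ n := by
        rw [fourier_coe_apply, ← Complex.exp_int_mul]
        congr 1
        have hpi' : ((2 : ℂ) * (Real.pi : ℂ)) ≠ 0 := by
          simp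
        push_cast
        field_simp
      change b n * _ = b n • (fourier n (x : AddCircle (2 * Real.pi)))
      rw [h3, smul_eq_mul]
    rw [h2, h1.tsum_eq]
    rfl
  -- the element of `L²`
  set G : Lp ℂ 2 (haarAddCircle (T := 2 * Real.pi)) :=
    ContinuousMap.toLp (E := ℂ) 2 haarAddCircle ℂ F with hG
  have hGs : HasSum (fun n : ℤ => b n • (fourierLp 2 n : Lp ℂ 2 (haarAddCircle (T := 2 * Real.pi)))) G := by
    have h1 := (ContinuousMap.toLp (E := ℂ) 2 (haarAddCircle (T := 2 * Real.pi)) ℂ).hasSum hF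
    have h2 : (fun n : ℤ => b n • (fourierLp 2 n : Lp ℂ 2 (haarAddCircle (T := 2 * Real.pi)))) =
      fun n : ℤ => (ContinuousMap.toLp (E := ℂ) 2 (haarAddCircle (T := 2 * Real.pi)) ℂ)
          (b n • (fourier n : C(AddCircle (2 * Real.pi), ℂ))) := by
      funext n
      rw [map_smul]
    rw [h2]
    exact h1
  have hcoef : ∀ n : ℤ, fourierCoeff G n = b n := by
    intro n
    rw [← fourierBasis_repr, HilbertBasis.repr_apply_apply, coe_fourierBasis]
    have h1 := (innerSL ℂ (fourierLp 2 n : Lp ℂ 2 (haarAddCircle (T := 2 * Real.pi)))).hasSum hGs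
    have h2 : HasSum (fun m : ℤ => (innerSL ℂ (fourierLp 2 n : Lp ℂ 2 (haarAddCircle (T := 2 * Real.pi))))
        (b m • (fourierLp 2 m : Lp ℂ 2 (haarAddCircle (T := 2 * Real.pi))))) (b n) := by
      have h3 := orthonormal_iff_ite.1 (orthonormal_fourier (T := 2 * Real.pi))
      have h4 : (fun m : ℤ => (innerSL ℂ (fourierLp 2 n : Lp ℂ 2 (haarAddCircle (T := 2 * Real.pi))))
        (b m • (fourierLp 2 m : Lp ℂ 2 (haarAddCircle (T := 2 * Real.pi))))) =
          fun m : ℤ => if m = n then b n else 0 := by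
        funext m
        rw [innerSL_apply_apply, inner_smul_right, h3 n m]
        by_cases h : m = n
        · subst h; simp
        · have h' : ¬ n = m := fun h'' => h h''.symm
          simp [h, h']
      rw [h4]
      exact hasSum_ite_eq n (b n)
    exact h1.unique h2
  have hP := tsum_sq_fourierCoeff G
  simp only [hcoef] at hP
  rw [hP]
  have h5 : ∫ t : AddCircle (2 * Real.pi), ‖G t‖ ^ 2 ∂haarAddCircle =
      ∫ t : AddCircle (2 * Real.pi), ‖F t‖ ^ 2 ∂haarAddCircle := by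
    apply integral_congr_ae
    have h6 : G =ᵐ[haarAddCircle] F := ContinuousMap.coeFn_toLp haarAddCircle F
    filter_upwards [h6] with t ht
    rw [ht]
  rw [h5, integral_haarAddCircle, smul_eq_mul]
  congr 1
  have h7 := AddCircle.intervalIntegral_preimage (2 * Real.pi) 0
    (fun t : AddCircle (2 * Real.pi) => ‖F t‖ ^ 2)
  rw [zero_add] at h7
  rw [← h7]
  apply intervalIntegral.integral_congr
  intro x _
  simp only
  rw [hFv x]

/-- PAR. -/
theorem par : ParS := by
  intro c θ h hθ hh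
  have hθ0 : 0 < θ := by linarith
  -- the bilateral sequence: `h j` at `j ≥ 0`, `-c θ^{-(k+1)}` at `-(k+1)`
  obtain ⟨b, hbn, hbs⟩ : ∃ b : ℤ → ℂ, (∀ j : ℕ, b (j : ℤ) = (h j : ℂ)) ∧
      ∀ k : ℕ, b (-((k : ℤ) + 1)) = -(c : ℂ) * ((θ : ℂ)⁻¹) ^ (k + 1) := by
    refine ⟨fun n => match n with
      | Int.ofNat j => (h j : ℂ)
      | Int.negSucc k => -(c : ℂ) * ((θ : ℂ)⁻¹) ^ (k + 1), fun j => rfl, ?_⟩
    intro k
    have : (-((k : ℤ) + 1)) = Int.negSucc k := by
      rw [Int.negSucc_eq]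
    rw [this]
  have hgeo : Summable (fun k : ℕ => θ⁻¹ ^ k) :=
    summable_geometric_of_lt_one (by positivity) (inv_lt_one_of_one_lt₀ hθ)
  have hsum : Summable (fun n : ℤ => ‖b n‖) := by
    apply Summable.of_nat_of_neg_add_one (f := fun n : ℤ => ‖b n‖)
    · have : (fun n : ℕ => ‖b (n : ℤ)‖) = fun n => |h n| := by
        funext n
        rw [hbn, Complex.norm_real, Real.norm_eq_abs]
      rw [this]
      exact hh
    · have : (fun n : ℕ => ‖b (-((n : ℤ) + 1))‖) = fun n : ℕ => |c| * θ⁻¹ * θ⁻¹ ^ n := by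
        funext n
        rw [hbs, norm_mul, norm_neg, Complex.norm_real, norm_pow, norm_inv, Complex.norm_real,
          Real.norm_eq_abs, Real.norm_eq_abs, abs_of_pos hθ0, pow_succ]
        ring
      rw [this]
      exact hgeo.mul_left _
  have hB := bilat b hsum
  -- right side
  have hR : ∑' n : ℤ, ‖b n‖ ^ 2 = c ^ 2 / (θ ^ 2 - 1) + ∑' j, h j ^ 2 := by
    have hh2 : Summable (fun j => h j ^ 2) := by
      have h0 : ∀ᶠ j in cofinite, |h j| ≤ 1 := by
        have := hh.tendsto_cofinite_zero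
        filter_upwards [this.eventually (ge_mem_nhds (show (0 : ℝ) < 1 by norm_num))] with j hj
        exact hj
      apply Summable.of_norm_bounded_eventually hh
      filter_upwards [h0] with j hj
      rw [Real.norm_eq_abs, abs_pow, sq]
      have := abs_nonneg (h j)
      nlinarith
    have h1 : Summable (fun n : ℕ => ‖b (n : ℤ)‖ ^ 2) := by
      simpa [hbn, Complex.norm_real] using hh2
    have hq : (θ⁻¹ ^ 2) < 1 := by
      have := inv_lt_one_of_one_lt₀ hθ
      have h0 : 0 < θ⁻¹ := by positivity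
      nlinarith
    have h2e : ∀ n : ℕ, ‖b (-((n : ℤ) + 1))‖ ^ 2 = c ^ 2 * θ⁻¹ ^ 2 * (θ⁻¹ ^ 2) ^ n := by
      intro n
      rw [hbs, norm_mul, norm_neg, Complex.norm_real, norm_pow, norm_inv, Complex.norm_real,
          Real.norm_eq_abs, Real.norm_eq_abs, abs_of_pos hθ0, mul_pow, sq_abs, ← pow_mul, ← pow_mul]
      ring
    have h2 : Summable (fun n : ℕ => ‖b (-((n : ℤ) + 1))‖ ^ 2) := by
      simp only [h2e]
      exact (summable_geometric_of_lt_one (by positivity) hq).mul_left _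
    rw [tsum_of_nat_of_neg_add_one (f := fun n : ℤ => ‖b n‖ ^ 2) h1 h2]
    have h3 : ∑' n : ℕ, ‖b (n : ℤ)‖ ^ 2 = ∑' j, h j ^ 2 := by
      apply tsum_congr
      intro j
      rw [hbn, Complex.norm_real, Real.norm_eq_abs, sq_abs]
    have h4 : ∑' n : ℕ, ‖b (-((n : ℤ) + 1))‖ ^ 2 = c ^ 2 / (θ ^ 2 - 1) := by
      simp only [h2e]
      rw [tsum_mul_left, tsum_geometric_of_lt_one (by positivity) hq]
      have : θ ^ 2 - 1 ≠ 0 := by nlinarith
      field_simp
    rw [h3, h4, add_comm]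
  rw [hR] at hB
  rw [← hB]
  congr 1
  apply intervalIntegral.integral_congr
  intro x _
  simp only
  congr 2
  set z : ℂ := Complex.exp (x * Complex.I) with hz
  have hz1 : ‖z‖ = 1 := by rw [hz]; exact Complex.norm_exp_ofReal_mul_I x
  have hz0 : z ≠ 0 := by rw [hz]; exact Complex.exp_ne_zero _
  have hs1 : Summable (fun n : ℕ => b (n : ℤ) * z ^ (n : ℤ)) := by
    apply Summable.of_norm
    have : (fun n : ℕ => ‖b (n : ℤ) * z ^ (n : ℤ)‖) = fun n => |h n| := by
      funext n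
      rw [hbn, norm_mul, Complex.norm_real, Real.norm_eq_abs, norm_zpow, hz1, one_zpow, mul_one]
    rw [this]
    exact hh
  have hs2e : ∀ n : ℕ, b (-((n : ℤ) + 1)) * z ^ (-((n : ℤ) + 1)) =
      -(c : ℂ) * ((θ : ℂ) * z)⁻¹ * (((θ : ℂ) * z)⁻¹) ^ n := by
    intro n
    have h9 : z ^ (-((n : ℤ) + 1)) = (z⁻¹) ^ (n + 1) := by
      rw [zpow_neg, ← inv_zpow]
      exact_mod_cast zpow_natCast z⁻¹ (n + 1)
    rw [hbs, h9, mul_inv, mul_pow, pow_succ, pow_succ]
    ring
  have hw : ‖((θ : ℂ) * z)⁻¹‖ < 1 := by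
    rw [norm_inv, norm_mul, hz1, mul_one, Complex.norm_real, Real.norm_eq_abs, abs_of_pos hθ0]
    exact inv_lt_one_of_one_lt₀ hθ
  have hs2 : Summable (fun n : ℕ => b (-((n : ℤ) + 1)) * z ^ (-((n : ℤ) + 1))) := by
    simp only [hs2e]
    exact (summable_geometric_of_norm_lt_one hw).mul_left _
  rw [tsum_of_nat_of_neg_add_one (f := fun n : ℤ => b n * z ^ n) hs1 hs2]
  have h10 : ∑' n : ℕ, b (-((n : ℤ) + 1)) * z ^ (-((n : ℤ) + 1)) = (c : ℂ) / (1 - θ * z) := by
    simp only [hs2e]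
    rw [tsum_mul_left, tsum_geometric_of_norm_lt_one hw]
    have hθz : (θ : ℂ) * z ≠ 0 := mul_ne_zero (by exact_mod_cast hθ0.ne') hz0
    have h11 : (1 : ℂ) - θ * z ≠ 0 := by
      intro h0
      have h12 : (θ : ℂ) * z = 1 := (sub_eq_zero.1 h0).symm
      rw [h12] at hw
      simp at hw
    have h13 : (1 : ℂ) - ((θ : ℂ) * z)⁻¹ ≠ 0 := by
      intro h0
      have h12 : ((θ : ℂ) * z)⁻¹ = 1 := (sub_eq_zero.1 h0).symm
      rw [h12] at hw
      simp at hw
    have h14 : (θ : ℂ) * z - 1 ≠ 0 := by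
      intro h0
      apply h11
      rw [← neg_sub, h0, neg_zero]
    generalize (θ : ℂ) * z = u at *
    have h15 : (1 : ℂ) - u⁻¹ = (u - 1) / u := by field_simp
    rw [h15]
    field_simp
    ring
  rw [h10, add_comm]
  congr 1
  apply tsum_congr
  intro j
  rw [hbn, zpow_natCast]

end

end Pool.Agent.MP_b5021c_nt.Par
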